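import Pool.Agent.W78.EG.Defs
import Pool.Agent.W78.GA.Basic

set_option autoImplicit false

/-!
Project EG (helper78), part CORR: factorisations `d d' = n^2 + t n + c` and pairs of elements of
the quadratic order.
-/

namespace Pool.Agent.W748.EG

open Finset Filter
open Pool.Agent.W78.GA
open Pool.Agent.W78.EG

variable {t c : ℤ} {f : ℕ} {χ : DirichletCharacter ℂ f}

lemma hD_of (hF : Fd t c f χ) : t ^ 2 < 4 * c := by
  have h1 := hF.disc
  have h2 : (3 : ℤ) ≤ f := by exact_mod_cast hF.three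
  linarith

lemma dtz (v w : Qd t c) : dt v w = v.re * w.im - v.im * w.re := rfl

/-- cancellation -/
lemma cancel (hD : t ^ 2 < 4 * c) {x y z : Qd t c} (hx : x ≠ 0) (h : x * y = x * z) : y = z := by
  have h1 : x * (y - z) = 0 := by rw [mul_sub, h, sub_self]
  have h2 := congrArg nm h1
  rw [nm_mul, nm_zero] at h2
  rcases Nat.mul_eq_zero.1 h2 with h3 | h3
  · exact absurd ((nm_eq_zero hD).1 h3) hx
  · exact sub_eq_zero.1 ((nm_eq_zero hD).1 h3)

/-- existence -/
lemma exists_pair (hF : Fd t c f χ) (n d d' : ℕ) (hd : 1 ≤ d)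
    (h : (d * d' : ℤ) = (n : ℤ) ^ 2 + t * n + c) :
    ∃ v w : Qd t c, nm v = d ∧ nm w = d' ∧ dt v w = 1 ∧ ip v w = n := by
  have hD := hD_of hF
  obtain ⟨z₁, h1, h2, h3⟩ := hF.red d (-(n : ℤ)) hd ⟨d', by rw [h]; ring⟩
  obtain ⟨y, hy⟩ := h3 ⟨n, 1⟩ (by
    unfold lat
    simp)
  have e1 : star (star z₁) * y = ⟨(n : ℤ), 1⟩ := by rw [star_star, ← hy]
  rw [star_mul_eq] at e1
  obtain ⟨e2, e3⟩ := QuadraticAlgebra.mk.inj e1
  refine ⟨star z₁, y, ?_, ?_, e3, e2⟩
  · rw [nm_star, h1]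
  · have h4 := congrArg nm hy
    rw [nm_mul, h1] at h4
    have h5 : ((nm (⟨(n : ℤ), 1⟩ : Qd t c) : ℕ) : ℤ) = d * d' := by
      rw [nm_cast hD, h]
      ring
    rw [h4] at h5
    have h6 : d * nm y = d * d' := by exact_mod_cast h5
    exact Nat.eq_of_mul_eq_mul_left hd h6

lemma mem_unit (hD : t ^ 2 < 4 * c) {u : Qd t c} : u ∈ ball t c 1 ↔ nm u = 1 := by
  rw [mem_ball hD]
  constructor
  · rintro ⟨h1, h2⟩
    have h3 : nm u ≤ 1 := by exact_mod_cast h2
    omega
  · intro h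
    rw [h]
    simp

/-- uniqueness up to units -/
lemma unique_pair (hD : t ^ 2 < 4 * c) {v w v' w' : Qd t c} (hv : v ≠ 0) (h1 : nm v' = nm v)
    (h3 : dt v w = 1) (h3' : dt v' w' = 1) (h4 : ip v' w' = ip v w) :
    ∃ u ∈ ball t c 1, v' = u * v ∧ w' = u * w := by
  have hg : star v * w = star v' * w' := by
    rw [star_mul_eq, star_mul_eq, h3, h3', h4]
  have hd : ((nm v : ℕ) : Qd t c) ≠ 0 := by
    intro h0
    have := congrArg nm h0
    rw [nm_natCast, nm_zero] at this
    have h5 : nm v = 0 := by simpa using this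
    exact hv ((nm_eq_zero hD).1 h5)
  have hs := star_mul_self' hD v
  have hs' := star_mul_self' hD v'
  rw [h1] at hs'
  have hc : w * v' = w' * v := by
    apply cancel hD hd
    calc ((nm v : ℕ) : Qd t c) * (w * v') = (star v * v) * (w * v') := by rw [hs]
      _ = (star v * w) * (v * v') := by ring
      _ = (star v' * w') * (v * v') := by rw [hg]
      _ = (star v' * v') * (w' * v) := by ring
      _ = ((nm v : ℕ) : Qd t c) * (w' * v) := by rw [hs']
  have hone : ((w.im : ℤ) : Qd t c) * v - ((v.im : ℤ) : Qd t c) * w = 1 := by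
    rw [dtz] at h3
    apply QuadraticAlgebra.ext
    · simp only [QuadraticAlgebra.re_sub, QuadraticAlgebra.re_mul, QuadraticAlgebra.re_intCast,
        QuadraticAlgebra.im_intCast, QuadraticAlgebra.re_one, Int.cast_id]
      linear_combination h3
    · simp only [QuadraticAlgebra.im_sub, QuadraticAlgebra.im_mul, QuadraticAlgebra.re_intCast,
        QuadraticAlgebra.im_intCast, QuadraticAlgebra.im_one, Int.cast_id]
      ring
  have huv : v' = (((w.im : ℤ) : Qd t c) * v' - ((v.im : ℤ) : Qd t c) * w') * v := by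
    calc v' = (((w.im : ℤ) : Qd t c) * v - ((v.im : ℤ) : Qd t c) * w) * v' := by
          rw [hone, one_mul]
      _ = ((w.im : ℤ) : Qd t c) * v * v' - ((v.im : ℤ) : Qd t c) * (w * v') := by ring
      _ = ((w.im : ℤ) : Qd t c) * v * v' - ((v.im : ℤ) : Qd t c) * (w' * v) := by rw [hc]
      _ = _ := by ring
  have huw : w' = (((w.im : ℤ) : Qd t c) * v' - ((v.im : ℤ) : Qd t c) * w') * w := by
    calc w' = (((w.im : ℤ) : Qd t c) * v - ((v.im : ℤ) : Qd t c) * w) * w' := by
          rw [hone, one_mul]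
      _ = ((w.im : ℤ) : Qd t c) * (w' * v) - ((v.im : ℤ) : Qd t c) * w * w' := by ring
      _ = ((w.im : ℤ) : Qd t c) * (w * v') - ((v.im : ℤ) : Qd t c) * w * w' := by rw [hc]
      _ = _ := by ring
  refine ⟨((w.im : ℤ) : Qd t c) * v' - ((v.im : ℤ) : Qd t c) * w', ?_, huv, huw⟩
  rw [mem_unit hD]
  have h5 := congrArg nm huv
  rw [nm_mul, h1] at h5
  have h6 : 0 < nm v := nm_pos hD hv
  have h7 : 1 * nm v = nm (((w.im : ℤ) : Qd t c) * v' - ((v.im : ℤ) : Qd t c) * w') * nm v := by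
    rw [one_mul]
    exact h5
  exact (Nat.eq_of_mul_eq_mul_right h6 h7).symm

lemma prim_of_dt {v w : Qd t c} (h : dt v w = 1) : prim v ∧ prim w := by
  rw [dtz] at h
  constructor
  · refine Int.isCoprime_iff_gcd_eq_one.1 ⟨w.im, -w.re, ?_⟩
    linear_combination h
  · refine Int.isCoprime_iff_gcd_eq_one.1 ⟨-v.im, v.re, ?_⟩
    linear_combination h

theorem corr (hF : Fd t c f χ) : S_CORR t c := by
  classical
  intro X F hX
  have hD := hD_of hF
  have htt := hF.tt
  have hmem : ∀ e : Qd t c × Qd t c, e ∈ (dedge t c X).filter (fun e => 0 < pp e.1 e.2) ↔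
      nm e.1 ∈ Icc 1 ⌊X⌋₊ ∧ nm e.2 ∈ Icc 1 ⌊X⌋₊ ∧ dt e.1 e.2 = 1 ∧ 0 < 2 * ip e.1 e.2 + t := by
    intro e
    have hb : ∀ z : Qd t c, prim z → (z ∈ pball t c X ↔ nm z ∈ Icc 1 ⌊X⌋₊) := by
      intro z hz
      unfold pball
      rw [Finset.mem_filter, mem_ball hD, Finset.mem_Icc, Nat.le_floor_iff (by linarith)]
      exact ⟨fun h => h.1, fun h => ⟨h, hz⟩⟩
    unfold dedge
    rw [Finset.mem_filter, Finset.mem_filter, Finset.mem_product]
    constructor
    · rintro ⟨⟨⟨h1, h2⟩, h3⟩, h4⟩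
      obtain ⟨p1, p2⟩ := prim_of_dt h3
      refine ⟨(hb _ p1).1 h1, (hb _ p2).1 h2, h3, ?_⟩
      unfold pp at h4
      rw [h3, mul_one] at h4
      exact h4
    · rintro ⟨h1, h2, h3, h4⟩
      obtain ⟨p1, p2⟩ := prim_of_dt h3
      refine ⟨⟨⟨(hb _ p1).2 h1, (hb _ p2).2 h2⟩, h3⟩, ?_⟩
      unfold pp
      rw [h3, mul_one]
      exact h4
  have hpos : ∀ m : ℤ, 0 < 2 * m + t → 0 ≤ m := by
    intro m hm
    rcases htt with h | h <;> omega
  have hprod : ∀ e : Qd t c × Qd t c, dt e.1 e.2 = 1 →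
      (nm e.1 * nm e.2 : ℤ) = (ip e.1 e.2) ^ 2 + t * ip e.1 e.2 + c := by
    intro e h3
    have h5 := ip_dt hD e.1 e.2
    rw [h3] at h5
    linear_combination h5
  have hmaps : ∀ e ∈ (dedge t c X).filter (fun e => 0 < pp e.1 e.2),
      (nm e.1, nm e.2) ∈ SP t c ⌊X⌋₊ := by
    intro e he
    obtain ⟨h1, h2, h3, h4⟩ := (hmem e).1 he
    have h5 := hprod e h3
    have h6 := hpos _ h4
    have h7 : ((ip e.1 e.2).toNat : ℤ) = ip e.1 e.2 := Int.toNat_of_nonneg h6
    unfold SP
    rw [Finset.mem_filter, Finset.mem_product]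
    refine ⟨⟨h1, h2⟩, (ip e.1 e.2).toNat, ?_, ?_⟩
    · rw [h7]; exact h4
    · rw [h7]; exact h5
  have hfib := Finset.sum_fiberwise_of_maps_to hmaps (fun e => F (nm e.1) (nm e.2))
  rw [← hfib, Finset.mul_sum]
  refine Finset.sum_congr rfl fun p hp1 => ?_
  unfold SP at hp1
  rw [Finset.mem_filter, Finset.mem_product] at hp1
  obtain ⟨⟨q1, q2⟩, n, hn0, hn⟩ := hp1
  have hd1 : 1 ≤ p.1 := (Finset.mem_Icc.1 q1).1
  obtain ⟨v, w, a1, a2, a3, a4⟩ := exists_pair hF n p.1 p.2 hd1 hn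
  have hv : v ≠ 0 := by
    rintro rfl
    rw [nm_zero] at a1
    omega
  -- the fibre
  have hset : ((dedge t c X).filter (fun e => 0 < pp e.1 e.2)).filter
      (fun e => (nm e.1, nm e.2) = p) = (ball t c 1).image (fun u => (u * v, u * w)) := by
    ext e
    rw [Finset.mem_filter, hmem, Finset.mem_image]
    constructor
    · rintro ⟨⟨h1, h2, h3, h4⟩, h5⟩
      have c1 : nm e.1 = p.1 := congrArg Prod.fst h5
      have c2 : nm e.2 = p.2 := congrArg Prod.snd h5
      have h6 := hprod e h3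
      rw [c1, c2, hn] at h6
      have h6' := hpos _ h4
      have h8 : ip e.1 e.2 = n := by
        have hfac : ((n : ℤ) - ip e.1 e.2) * ((n : ℤ) + ip e.1 e.2 + t) = 0 := by
          linear_combination h6
        rcases mul_eq_zero.1 hfac with h9 | h9
        · linarith
        · exfalso; linarith
      obtain ⟨u, hu, hu1, hu2⟩ := unique_pair hD hv (c1.trans a1.symm) a3 h3 (h8.trans a4.symm)
      exact ⟨u, hu, Prod.ext hu1.symm hu2.symm⟩
    · rintro ⟨u, hu, rfl⟩
      rw [mem_unit hD] at hu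
      have e1 : star (u * v) * (u * w) = star v * w := by
        have : star (u * v) * (u * w) = (star u * u) * (star v * w) := by
          rw [star_mul']
          ring
        rw [this, star_mul_self' hD, hu, Nat.cast_one, one_mul]
      rw [star_mul_eq, star_mul_eq] at e1
      obtain ⟨e2, e3⟩ := QuadraticAlgebra.mk.inj e1
      have n1 : nm (u * v) = p.1 := by rw [nm_mul, hu, one_mul, a1]
      have n2 : nm (u * w) = p.2 := by rw [nm_mul, hu, one_mul, a2]
      refine ⟨⟨?_, ?_, ?_, ?_⟩, ?_⟩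
      · rw [n1]; exact q1
      · rw [n2]; exact q2
      · rw [e3]; exact a3
      · rw [e2, a4]
        exact hn0
      · exact Prod.ext n1 n2
  have hinj : Function.Injective (fun u : Qd t c => (u * v, u * w)) := by
    intro u u' h
    have h1 : u * v = u' * v := congrArg Prod.fst h
    rw [mul_comm u, mul_comm u'] at h1
    exact cancel hD hv h1
  have hcard : (((dedge t c X).filter (fun e => 0 < pp e.1 e.2)).filter
      (fun e => (nm e.1, nm e.2) = p)).card = uc t c := by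
    rw [hset, Finset.card_image_of_injective _ hinj]
    rfl
  have hconst : ∑ e ∈ ((dedge t c X).filter (fun e => 0 < pp e.1 e.2)).filter
      (fun e => (nm e.1, nm e.2) = p), F (nm e.1) (nm e.2) =
      ∑ e ∈ ((dedge t c X).filter (fun e => 0 < pp e.1 e.2)).filter
      (fun e => (nm e.1, nm e.2) = p), F p.1 p.2 := by
    refine Finset.sum_congr rfl fun e he => ?_
    rw [Finset.mem_filter] at he
    rw [← he.2]
  rw [hconst, Finset.sum_const, hcard, nsmul_eq_mul]

end Pool.Agent.W748.EG
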